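import Pool.Agent.Helper90.PF.Main

/-!
# Lower bounds for the Pythagoras number of `ℝ(X_1, …, X_n)`

Let `P(n)` be the Pythagoras number of `ℝ(X_1, …, X_n)`.  We prove `P(n) ≥ 2 (n + 1 - t)` if
`n + 2 ≤ 2 ^ t + t`, and, if `s = 2 ^ j ≤ P(N)`, that `P(N + a + q s) ≥ (2 q + 1) s` for
`q + 1 ≤ 2 ^ a` and `P(N + a + q s) ≥ (2 q + 1) s + 1` for `q + 2 ≤ 2 ^ a`.

Proof of the first bound.  Let `k = ℝ(x_1, …, x_t)` and let `r_1, …, r_R` be products of the
elements `1 + x_i ^ 2` over distinct nonempty index sets.  Assume that the element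
`r_1 s_1 ^ 2 + … + r_q s_q ^ 2 + r_R`, `q = R - 1`, of `k(s_1, …, s_q)` is a sum of `2 R - 1`
squares.  By Cassels' theorem (with linear constraints) and reflections there are pairwise
orthogonal vectors `u_j` in `k ^ (2 R - 1)` with `u_j ⬝ u_j = r_j`.  Over `ℂ(x_1, …, x_t)` the
`R - 1` equations `v_(2 l) + i v_(2 l + 1) = 0` have a nonzero solution `v` in the span of the
`u_j`, and `v ⬝ v` is a square.  So the form `⟨1, r_1, …, r_R⟩` is isotropic over
`ℂ(x_1, …, x_t)`; but it is anisotropic, by residues at `x_i = i`.  In the second part `i` is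
replaced by the square root of `-g`, where `g` is a sum of squares and not of `s - 1` squares.
-/

namespace Pool.Agent.Results.MP_b906c2_al.DoubledLowerBound

/-- Each sum of squares in `ℝ(X_1, …, X_n)` is a sum of `p` squares.  The Pythagoras number
`P(n)` of this field is the least such `p`. -/
def IsPythBound (n p : ℕ) : Prop :=
  ∀ x : FractionRing (MvPolynomial (Fin n) ℝ), IsSumSq x →
    ∃ f : Fin p → FractionRing (MvPolynomial (Fin n) ℝ), x = ∑ i, f i ^ 2

end Pool.Agent.Results.MP_b906c2_al.DoubledLowerBound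

open Pool.Agent.Results.MP_b906c2_al.DoubledLowerBound

theorem Pool.Agent.Results.MP_b906c2_al.DoubledLowerBound.result :
    (∀ t n p : ℕ, n + 2 ≤ 2 ^ t + t → IsPythBound n p → 2 * (n + 1 - t) ≤ p) ∧
    (∀ N j a q p : ℕ, (∀ p' : ℕ, IsPythBound N p' → 2 ^ j ≤ p') →
      IsPythBound (N + a + q * 2 ^ j) p →
        (q + 1 ≤ 2 ^ a → (2 * q + 1) * 2 ^ j ≤ p) ∧
        (q + 2 ≤ 2 ^ a → (2 * q + 1) * 2 ^ j + 1 ≤ p)) := by
  refine ⟨fun t n p hn hp => Pool.H90PF.explicit t n p hn hp, fun N j a q p hN hp => ?_⟩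
  obtain ⟨h1, h2⟩ := Pool.H90PF.main_real N j hN a q
  have e : N + (a + q * 2 ^ j) = N + a + q * 2 ^ j := by ring
  rw [e] at h1 h2
  refine ⟨fun hq => ?_, fun hq => ?_⟩
  · have := h1 hq p hp
    have h3 : (2 * q + 1) * 2 ^ j = 2 * q * 2 ^ j + 2 ^ j := by ring
    rw [h3]
    exact this
  · have := h2 hq p hp
    have h3 : (2 * q + 1) * 2 ^ j = 2 * q * 2 ^ j + 2 ^ j := by ring
    rw [h3]
    exact this
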