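import Pool.Agent.PFL.MAIN

/-!
# The Pythagoras number of `ℝ(X_1, …, X_N)` grows linearly in `N`

If `2 ^ m ≥ N + 2` and `b * 2 ^ m ≥ 2 * N`, then every sum of squares in `ℝ(X_1, …, X_N)` is a sum of
`(b + 1) * 2 ^ m - 1` squares.  For `N = 4` this number is `15`, and `6 * N - 7` squares are enough
for all `N ≥ 4`.

Proof.  (1) Put `ρ_0 = 1`, `ρ_(n+1) = ρ_n ^ 2 + X_0 ^ 2`.  Let `G ∈ ℝ[X_0, …, X_n]` be positive of
exact order of growth `ρ_(n+1) ^ M`.  Then `G` has constant leading coefficient in `X_0` and its roots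
`z`, divided by `ρ_n`, stay in a compact subset of `ℂ \ ℝ`, so one real polynomial `a` with
`a (z / ρ_n) ^ 2` close to `-1` serves for all roots and all real points.  The polynomial `P` whose
roots are the weighted sums of square roots of `- a (z / ρ_n) ^ 2` satisfies `P (c) = - G'` with `G'` of
exact order of growth `ρ_n ^ M'`, and the norm principle, used twice, gives `2 n + 2` squares for `G` from
`2 n` squares for `G'`.  (2) For `F = f_1 ^ 2 + … + f_r ^ 2` in `K = ℝ(X_1, …, X_N)` a graded Noether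
normalisation of `K` by linear forms in the `f_i X_j`, raised to powers of two, and `N + 1` real
polynomials close to a square root of `-1` on the compact set of all specialisations of
`K (√-F)` over real points of the base give `σ ∈ K` as in (1) with `-σ` a sum of `2 ^ m` squares
in `K (√-F)`.  (3) From (1) and (2), `F` is a sum of `(b + 1) * 2 ^ m - 1` squares.
-/

namespace Pool.Agent.Results.MP_b906c2_al.LinearBound

/-- Each sum of squares in `ℝ(X_1, …, X_n)` is a sum of `p` squares, in other words, the Pythagoras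
number of this field is at most `p`. -/
def IsPythBound (n p : ℕ) : Prop :=
  ∀ x : FractionRing (MvPolynomial (Fin n) ℝ), IsSumSq x →
    ∃ f : Fin p → FractionRing (MvPolynomial (Fin n) ℝ), x = ∑ i, f i ^ 2

end Pool.Agent.Results.MP_b906c2_al.LinearBound

open Pool.Agent.Results.MP_b906c2_al.LinearBound

theorem Pool.Agent.Results.MP_b906c2_al.LinearBound.result :
    (∀ N m b : ℕ, 1 ≤ N → N + 2 ≤ 2 ^ m → 2 * N ≤ b * 2 ^ m →
      IsPythBound N ((b + 1) * 2 ^ m - 1)) ∧
    (∀ N : ℕ, 4 ≤ N → IsPythBound N (6 * N - 7)) ∧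
    ∀ N : ℕ, 4 ≤ N → IsPythBound N (2 ^ N - 1) := by
  have h1 : ∀ N m b : ℕ, 1 ≤ N → N + 2 ≤ 2 ^ m → 2 * N ≤ b * 2 ^ m →
      IsPythBound N ((b + 1) * 2 ^ m - 1) := fun N m b hN hm hb x hx =>
    Pool.Agent.PFL.main N hN m hm b hb x hx
  have mono : ∀ {N p q : ℕ}, p ≤ q → IsPythBound N p → IsPythBound N q := by
    intro N p q hpq h x hx
    exact Pool.Agent.PFS.ENG2aux.SS_mono hpq (h x hx)
  have pow : ∀ N : ℕ, 1 ≤ N → ∃ m, N + 2 ≤ 2 ^ m ∧ 2 ^ m ≤ 2 * N + 2 := by
    intro N hN
    refine ⟨Nat.log 2 (N + 1) + 1, Nat.lt_pow_succ_log_self (by norm_num) (N + 1), ?_⟩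
    have := Nat.pow_log_le_self 2 (show N + 1 ≠ 0 by omega)
    rw [pow_succ]
    omega
  have grow : ∀ N : ℕ, 6 ≤ N → 6 * N + 6 ≤ 2 ^ N := by
    intro N hN
    induction N, hN using Nat.le_induction with
    | base => norm_num
    | succ N hN ih =>
      rw [pow_succ]
      omega
  refine ⟨h1, ?_, ?_⟩
  · intro N hN
    rcases Nat.lt_or_ge N 5 with h | h
    · obtain rfl : N = 4 := by omega
      exact mono (by norm_num) (h1 4 3 1 (by norm_num) (by norm_num) (by norm_num))
    · obtain ⟨m, hm1, hm2⟩ := pow N (by omega)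
      rcases Nat.lt_or_ge (2 ^ m) (2 * N) with h2 | h2
      · have h3 : Even (2 ^ m) := by
          refine (Nat.even_pow.2 ⟨even_two, ?_⟩)
          rintro rfl
          omega
        obtain ⟨j, hj⟩ := h3
        exact mono (by omega) (h1 N m 2 (by omega) hm1 (by omega))
      · exact mono (by omega) (h1 N m 1 (by omega) hm1 (by omega))
  · intro N hN
    rcases Nat.lt_or_ge N 6 with h | h
    · interval_cases N
      · exact mono (by norm_num) (h1 4 3 1 (by norm_num) (by norm_num) (by norm_num))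
      · exact mono (by norm_num) (h1 5 3 2 (by norm_num) (by norm_num) (by norm_num))
    · obtain ⟨m, hm1, hm2⟩ := pow N (by omega)
      refine mono ?_ (h1 N m 2 (by omega) hm1 (by omega))
      have h2 := grow N h
      omega
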