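import Pool.Agent.PDF.Fin

/-!
# Positive definite forms are sums of fewer than `2 ^ N` squares

Let `f(x_0, …, x_N)` be a form over `ℝ` which is positive on `ℝ ^ (N + 1)` outside the origin
(`N ≥ 3`).  Then `f(1, X_1, …, X_N)` is a sum of `2 ^ (N - 1) + N + 1` squares in
`ℝ(X_1, …, X_N)`; for `N = 3` it is a sum of `7` squares.

Proof.  Let `k = ℝ(X_1, …, X_n)`, `n = N - 1`, let `F ∈ k[Y]` be the monic polynomial of degree
`2 m` obtained from `f`, with roots `ω` in an algebraic closure, and let `P(T)` be the resolvent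
with roots `κ(S) ^ 2`, `κ(S) = ∑_{ω ∈ S} ω - ∑_{ω ∉ S} ω`, up to scaling, over the `m`-element
sets `S` of roots.  At every ordering of `k` exactly one factor of `P(c)`, `c = m - 1`, changes
sign, since the conjugate pairs of roots are uniformly apart from the real axis.  The norm
principle applied to `2 ^ n ⟨1⟩` over the function field of `e ^ 2 = - F` gives the result.
-/

theorem Pool.Agent.Results.MP_b906c2_al.PositiveDefiniteForms.result
    (N : ℕ) (hN : 3 ≤ N) (d : ℕ) (f : MvPolynomial (Fin (N + 1)) ℝ)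
    (hf : f.IsHomogeneous d)
    (hpos : ∀ v : Fin (N + 1) → ℝ, v ≠ 0 → 0 < MvPolynomial.eval v f) :
    ∃ g : Fin (if N = 3 then 7 else 2 ^ (N - 1) + N + 1) →
        FractionRing (MvPolynomial (Fin N) ℝ),
      algebraMap (MvPolynomial (Fin N) ℝ) (FractionRing (MvPolynomial (Fin N) ℝ))
        (MvPolynomial.aeval (Fin.cons 1 MvPolynomial.X) f) = ∑ i, g i ^ 2 :=
  Pool.Agent.PDF.final N hN d f hf hpos
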